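import Pool.Agent.R507.MP32.Main

/-!
# MP_32607b_nt, Q1: answer TRUE

For all positive integers `m, n, k` with `m ≥ k`, the square `n^2` divides
`C_{k,m} * ∑_{h=0}^{n-1} (h choose 2k+1)^(2m+1)`, where
`C_{k,m} = ((2k+1)(2m+1)+1)! / ((2k+1)!)^(2m+1)` (an integer).
-/

namespace Pool.Agent.Results.MP_32607b_nt.OddPowersModSquare

open Finset

/-- The multiplier `C_{k,m} = ((2k+1)(2m+1)+1)! / ((2k+1)!)^(2m+1)`; the division is exact,
see the first half of `result`. -/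
def Ckm (k m : ℕ) : ℕ := ((2*k+1)*(2*m+1)+1).factorial / ((2*k+1).factorial)^(2*m+1)

/-- `S_{k,m}(n) = ∑_{h=0}^{n-1} (h choose 2k+1)^(2m+1)`. -/
def Skm (k m n : ℕ) : ℕ := ∑ h ∈ range n, (h.choose (2*k+1))^(2*m+1)

theorem result :
    (∀ m k : ℕ, ((2*k+1).factorial)^(2*m+1) ∣ ((2*k+1)*(2*m+1)+1).factorial) ∧
    ∀ m n k : ℕ, 0 < m → 0 < n → 0 < k → k ≤ m → n^2 ∣ Ckm k m * Skm k m n := by
  refine ⟨fun m k => ?_, fun m n k hm hn hk hkm => ?_⟩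
  · exact Dvd.intro_left _ (Pool.Agent.R507.MP32.Cn_mul (2*k+1) (2*m+1))
  · exact Pool.Agent.R507.MP32.main (2*k+1) (2*m+1) n ⟨k, rfl⟩ (by omega) ⟨m, rfl⟩ (by omega) hn

end Pool.Agent.Results.MP_32607b_nt.OddPowersModSquare
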